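import Mathlib

open Finset

namespace Pool.Agent.Results.MP_acc8c3_co.Spanning

/-- The subgraph of the complete bipartite graph on `A ⊕ B` formed by the edges of colour `i`. -/
def colourGraph {A B K : Type} (c : A → B → K) (i : K) : SimpleGraph (A ⊕ B) :=
  SimpleGraph.fromRel fun x y => ∃ u v, x = Sum.inl u ∧ y = Sum.inr v ∧ c u v = i

/-- Every vertex is incident to an edge of each colour that occurs. -/
def IsSpanning {A B K : Type} (c : A → B → K) : Prop :=
  ∀ i, (∃ u v, c u v = i) → (∀ u, ∃ v, c u v = i) ∧ (∀ v, ∃ u, c u v = i)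

/-- The vertex set is the union of `m` monochromatic components. -/
def CoveredBy {A B K : Type} (c : A → B → K) (m : ℕ) : Prop :=
  ∃ (col : Fin m → K) (C : ∀ j, (colourGraph c (col j)).ConnectedComponent),
    ∀ x, ∃ j, x ∈ (C j).supp

section
variable {n : ℕ}

def own (c : ZMod (n + 5)) : ZMod (n + 5) := if c = 0 then 1 else c

abbrev Row (n : ℕ) : Type := {i : ZMod (n + 5) // i ≠ 0}

abbrev Val (n : ℕ) : Type := {σ : Equiv.Perm (ZMod (n + 5)) // ∀ i, i ≠ 0 → own (σ i) ≠ i}

def colr {W : Type} [DecidableEq W] (u : Row n × W) (v : Val n × W) : ZMod (n + 5) :=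
  if u.2 = v.2 ∧ own (v.1.1 0) = u.1 then v.1.1 0 else v.1.1 u.1

def lab {W : Type} (c : ZMod (n + 5)) : (Row n × W) ⊕ (Val n × W) → ZMod (n + 5) ⊕ W
  | Sum.inl u => if own c = u.1 then Sum.inr u.2 else Sum.inl u.1
  | Sum.inr v => if v.1.1 0 = c then Sum.inr v.2 else Sum.inl (v.1.1.symm c)

theorem lab_edge {W : Type} [DecidableEq W] (u : Row n × W) (v : Val n × W) :
    lab (colr u v) (Sum.inl u) = lab (colr u v) (Sum.inr v) := by
  unfold colr
  split_ifs with h
  · simp [lab, h.1, h.2]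
  · have h1 := v.1.2 u.1 u.1.2
    have h2 : v.1.1 0 ≠ v.1.1 u.1 := fun h => u.1.2 (v.1.1.injective h).symm
    simp [lab, h1, h2]

theorem lab_reach {W : Type} [DecidableEq W] (c : ZMod (n + 5)) {x y : (Row n × W) ⊕ (Val n × W)}
    (h : (colourGraph colr c).Reachable x y) : lab c x = lab c y := by
  obtain ⟨p⟩ := h
  induction p with
  | nil => rfl
  | cons h _ ih =>
    rw [← ih]
    obtain ⟨-, ⟨u, v, rfl, rfl, rfl⟩ | ⟨u, v, rfl, rfl, rfl⟩⟩ := h
    · exact lab_edge u v
    · exact (lab_edge u v).symm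

theorem small_ne (a : ℕ) (h0 : 0 < a) (h : a < 5) : ((a : ℕ) : ZMod (n + 5)) ≠ 0 := by
  rw [Ne, ZMod.natCast_eq_zero_iff]
  exact Nat.not_dvd_of_pos_of_lt h0 (by omega)

theorem exists_val (i c : ZMod (n + 5)) (h : i ≠ 0 → own c ≠ i) : ∃ σ : Val n, σ.1 i = c := by
  have h1 : (1 : ZMod (n + 5)) ≠ 0 := by simpa using small_ne (n := n) 1 (by omega) (by omega)
  have h2 : (2 : ZMod (n + 5)) ≠ 0 := by simpa using small_ne (n := n) 2 (by omega) (by omega)
  have h3 : (3 : ZMod (n + 5)) ≠ 0 := by simpa using small_ne (n := n) 3 (by omega) (by omega)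
  have h4 : (4 : ZMod (n + 5)) ≠ 0 := by simpa using small_ne (n := n) 4 (by omega) (by omega)
  have shift : ∀ d x : ZMod (n + 5), d ≠ 0 → d ≠ -1 → own (x + d) ≠ x := by
    intro d x hd hd' he
    unfold own at he
    split_ifs at he with h0
    · exact hd' (by rw [← he] at h0; linear_combination h0)
    · exact hd (by linear_combination he)
  by_cases hd : c - i ≠ 0 ∧ c - i ≠ -1
  · exact ⟨⟨Equiv.addRight (c - i), fun x _ => shift _ x hd.1 hd.2⟩, by simp⟩
  · refine ⟨⟨(Equiv.swap i (c - 1)).trans (Equiv.addRight 1), fun x hx => ?_⟩, by simp⟩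
    simp only [Equiv.trans_apply, Equiv.coe_addRight]
    by_cases a : x = i
    · subst a; simpa using h hx
    by_cases b : x = c - 1
    · subst b
      rw [Equiv.swap_apply_right]
      unfold own
      rw [not_and_or, not_not, not_not] at hd
      rcases hd with hd | hd
      · have hc : c = i := by linear_combination hd
        subst hc
        split_ifs with h0
        · intro e; exact h3 (by linear_combination h0 + e)
        · intro e; exact h2 (by linear_combination e)
      · split_ifs with h0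
        · intro e; exact h4 (by linear_combination h0 + e + hd)
        · intro e; exact h3 (by linear_combination e + hd)
    · rw [Equiv.swap_apply_of_ne_of_ne a b]
      exact shift 1 x h1 (fun e => h2 (by linear_combination e))

theorem own_ne (c : ZMod (n + 5)) : own c ≠ 0 := by
  have h1 : (1 : ZMod (n + 5)) ≠ 0 := by simpa using small_ne (n := n) 1 (by omega) (by omega)
  unfold own; split_ifs with h <;> assumption

theorem spanning {W : Type} [DecidableEq W] [Nontrivial W] :
    IsSpanning (colr : Row n × W → Val n × W → ZMod (n + 5)) := by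
  intro c _
  constructor
  · rintro ⟨i, w⟩
    by_cases h : own c = i
    · obtain ⟨σ, hσ⟩ := exists_val 0 c (fun h => absurd rfl h)
      exact ⟨(σ, w), by simp [colr, hσ, h]⟩
    · obtain ⟨σ, hσ⟩ := exists_val i c (fun _ => h)
      obtain ⟨w', hw⟩ := exists_ne w
      exact ⟨(σ, w'), by simp [colr, hσ, hw.symm]⟩
  · rintro ⟨σ, w⟩
    by_cases h : σ.1 0 = c
    · exact ⟨(⟨own c, own_ne c⟩, w), by simp [colr, h]⟩
    · obtain ⟨w', hw⟩ := exists_ne w
      refine ⟨(⟨σ.1.symm c, fun e => h ((Equiv.symm_apply_eq _).1 e).symm⟩, w'), by simp [colr, hw]⟩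

theorem block (Z : Finset (ZMod (n + 5) × ZMod (n + 5))) (h1 : ∀ i, i ≠ 0 → ∃ c, (i, c) ∈ Z)
    (h2 : ∀ σ : Val n, ∃ i, i ≠ 0 ∧ (i, σ.1 i) ∈ Z) : 2 * (n + 5) ≤ Z.card + 4 := by
  classical
  set t : ZMod (n + 5) → Finset (ZMod (n + 5)) := fun i =>
    univ.filter fun c => i ≠ 0 → (i, c) ∉ Z ∧ own c ≠ i with ht
  have hcard : Fintype.card (ZMod (n + 5)) = n + 5 := ZMod.card _
  have hall : ¬ ∀ S : Finset (ZMod (n + 5)), S.card ≤ (S.biUnion t).card := by
    intro hh
    obtain ⟨f, hf, hft⟩ := (all_card_le_biUnion_card_iff_exists_injective t).1 hh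
    simp only [ht, mem_filter, mem_univ, true_and] at hft
    obtain ⟨i, hi, hz⟩ := h2 ⟨Equiv.ofBijective f (Finite.injective_iff_bijective.1 hf),
      fun i hi => (hft i hi).2⟩
    exact (hft i hi).1 hz
  push Not at hall
  obtain ⟨S, hS⟩ := hall
  have h0 : (0 : ZMod (n + 5)) ∉ S := by
    intro h0
    have : S.biUnion t = univ := eq_univ_of_forall fun c => mem_biUnion.2 ⟨0, h0, by simp [ht]⟩
    rw [this] at hS
    exact absurd (card_le_univ S) (not_le.2 hS)
  set T := (S.biUnion t)ᶜ with hT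
  have hTc : T.card + (S.biUnion t).card = n + 5 := by rw [hT, card_compl_add_card, hcard]
  have hs1 : S.card + 1 ≤ n + 5 := by
    have := card_le_univ (insert 0 S)
    rwa [card_insert_of_notMem h0, hcard] at this
  have hZ := card_filter_add_card_filter_not (s := Z) (fun p => p.1 ∈ S)
  have hZ2 : n + 5 ≤ (Z.filter fun p => ¬ p.1 ∈ S).card + (S.card + 1) := by
    have : (insert 0 S)ᶜ ⊆ (Z.filter fun p => ¬ p.1 ∈ S).image Prod.fst := by
      intro i hi
      simp only [mem_compl, mem_insert, not_or] at hi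
      obtain ⟨c, hc⟩ := h1 i hi.1
      exact mem_image.2 ⟨(i, c), mem_filter.2 ⟨hc, hi.2⟩, rfl⟩
    have h3 := (card_le_card this).trans card_image_le
    have h4 := card_compl_add_card (insert 0 S)
    rw [card_insert_of_notMem h0, hcard] at h4
    omega
  have hZ1 : S.card * T.card ≤ (Z.filter fun p => p.1 ∈ S).card + (T ∩ insert 0 S).card := by
    have : S ×ˢ T ⊆ (Z.filter fun p => p.1 ∈ S) ∪ (T ∩ insert 0 S).image fun c => (own c, c) := by
      rintro ⟨i, c⟩ hp
      obtain ⟨hi, hc⟩ := mem_product.1 hp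
      have hc' := hc
      simp only [hT, mem_compl, mem_biUnion, not_exists, not_and, ht, mem_filter, mem_univ,
        true_and] at hi hc'
      by_cases hz : (i, c) ∈ Z
      · exact mem_union_left _ (mem_filter.2 ⟨hz, hi⟩)
      · have ho : own c = i := by
          by_contra ho
          exact hc' i hi fun _ => ⟨hz, ho⟩
        refine mem_union_right _ (mem_image.2 ⟨c, mem_inter.2 ⟨hc, ?_⟩, by rw [ho]⟩)
        rw [mem_insert]
        by_cases hc0 : c = 0
        · exact Or.inl hc0
        · right; rw [own, if_neg hc0] at ho; rwa [ho]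
    have h3 := (card_le_card this).trans (card_union_le _ _)
    rw [card_product] at h3
    exact h3.trans (Nat.add_le_add_left card_image_le _)
  have b1 : (T ∩ insert 0 S).card ≤ T.card := card_le_card inter_subset_left
  have b2 : (T ∩ insert 0 S).card ≤ S.card + 1 := by
    rw [← card_insert_of_notMem h0]; exact card_le_card inter_subset_right
  generalize (T ∩ insert 0 S).card = x at *
  generalize (Z.filter fun p => p.1 ∈ S).card = z1 at *
  generalize (Z.filter fun p => ¬ p.1 ∈ S).card = z2 at *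
  generalize (S.biUnion t).card = b at *
  generalize T.card = tt at *
  generalize S.card = s at *
  rcases Nat.eq_or_lt_of_le hs1 with h | h
  · obtain rfl : s = n + 4 := by omega
    nlinarith
  · obtain ⟨e, he⟩ : ∃ e, n + 5 = s + 2 + e := ⟨n + 5 - (s + 2), by omega⟩
    obtain ⟨s', rfl⟩ : ∃ s', s = s' + 1 := ⟨s - 1, by omega⟩
    have : e + 3 ≤ tt := by omega
    nlinarith

theorem lower (m : ℕ)
    (h : CoveredBy (colr : Row n × Fin (2 * (n + 5)) → Val n × Fin (2 * (n + 5)) → _) m) :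
    2 * (n + 5) ≤ m + 4 := by
  classical
  obtain ⟨col, C, hC⟩ := h
  by_contra hm
  set ℓ : Fin m → ZMod (n + 5) ⊕ Fin (2 * (n + 5)) := fun j => lab (col j) (C j).out with hℓ
  have hcov : ∀ x, ∃ j, lab (col j) x = ℓ j := by
    intro x
    obtain ⟨j, hj⟩ := hC x
    refine ⟨j, lab_reach _ (SimpleGraph.ConnectedComponent.exact ?_)⟩
    rw [(SimpleGraph.ConnectedComponent.mem_supp_iff _ _).1 hj]
    exact (Quot.out_eq _).symm
  obtain ⟨w, hw⟩ : ∃ w, ∀ j, ℓ j ≠ Sum.inr w := by
    by_contra hc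
    push Not at hc
    choose f hf using hc
    have := Fintype.card_le_of_injective f (fun a b hab => by
      have := hf a; rw [hab, hf b] at this; exact (Sum.inr_injective this).symm)
    simp at this; omega
  have := block (univ.image fun j => (Sum.elim id (fun _ => 0) (ℓ j), col j)) (by
    intro i hi
    obtain ⟨j, hj⟩ := hcov (Sum.inl (⟨i, hi⟩, w))
    refine ⟨col j, mem_image.2 ⟨j, mem_univ _, ?_⟩⟩
    simp only [lab] at hj
    split_ifs at hj
    · exact absurd hj.symm (hw j)
    · rw [← hj]; rfl) (by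
    intro σ
    obtain ⟨j, hj⟩ := hcov (Sum.inr (σ, w))
    simp only [lab] at hj
    split_ifs at hj with h0
    · exact absurd hj.symm (hw j)
    · refine ⟨σ.1.symm (col j), fun e => h0 ((Equiv.symm_apply_eq _).1 e).symm,
        mem_image.2 ⟨j, mem_univ _, ?_⟩⟩
      rw [← hj]; simp)
  have h2 := card_image_le (s := univ) (f := fun j => (Sum.elim id (fun _ => 0) (ℓ j), col j))
  simp only [card_univ, Fintype.card_fin] at h2
  omega

end

theorem result (k : ℕ) (hk : 1 ≤ k) :
    ∃ (A B : Type) (_ : Fintype A) (_ : Fintype B) (_ : Nonempty A) (_ : Nonempty B)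
      (c : A → B → Fin k), IsSpanning c ∧
        ∀ m : ℕ, CoveredBy c m → 2 * (k : ℝ) - 4 * Real.sqrt k ≤ m := by
  rcases lt_or_ge k 5 with h | h
  · refine ⟨Unit, Unit, inferInstance, inferInstance, inferInstance, inferInstance,
      fun _ _ => ⟨0, hk⟩, fun i ⟨_, _, hi⟩ => ⟨fun _ => ⟨(), hi⟩, fun _ => ⟨(), hi⟩⟩, fun m _ => ?_⟩
    have h1 : (k : ℝ) ≤ 4 := by exact_mod_cast Nat.lt_succ_iff.1 h
    have h2 := Real.sq_sqrt (Nat.cast_nonneg (α := ℝ) k)
    have h3 := Real.sqrt_nonneg k
    have h4 : (0 : ℝ) ≤ m := Nat.cast_nonneg _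
    have h5 : Real.sqrt k ≤ 2 := by nlinarith
    nlinarith
  · obtain ⟨n, rfl⟩ : ∃ n, k = n + 5 := ⟨k - 5, by omega⟩
    haveI : Nontrivial (Fin (2 * (n + 5))) := Fin.nontrivial_iff_two_le.2 (by omega)
    obtain ⟨σ, -⟩ := exists_val (n := n) 0 0 (fun h => absurd rfl h)
    refine ⟨Row n × Fin (2 * (n + 5)), Val n × Fin (2 * (n + 5)), Fintype.ofFinite _,
      Fintype.ofFinite _, ⟨(⟨own 0, own_ne 0⟩, ⟨0, by omega⟩)⟩, ⟨(σ, ⟨0, by omega⟩)⟩, colr,
      spanning, fun m hm => ?_⟩
    have h1 : ((2 * (n + 5) : ℕ) : ℝ) ≤ ((m + 4 : ℕ) : ℝ) := by exact_mod_cast lower m hm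
    have h2 : 1 ≤ Real.sqrt ((n + 5 : ℕ) : ℝ) := Real.one_le_sqrt.2 (by exact_mod_cast hk)
    push_cast at *
    linarith

end Pool.Agent.Results.MP_acc8c3_co.Spanning
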